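import Pool.Agent.VGS.Basic

/-! Nilpotence on a subspace of the Chow group: what the proof uses about the points of a surface
and the pairs of points (in the same fibre of a map) which are linked by rational curves. -/

set_option autoImplicit false

namespace Pool.Agent.VGS.FibSys


/-- What the proof of nilpotence uses: `X` is the set of points of the surface, `K` its field of
definition, `Gen L` the points which are generic over `L`, `Pr L` the pairs of points which are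
generic over `L` and in one fibre, `rat` the cycles which are rationally equivalent to zero and
`TZ L` the cycles on which all two-forms vanish (for all derivations over `L`). -/
structure Sys where
  P : Type
  act : (ℂ ≃+* ℂ) → P → P
  act_one : ∀ p, act 1 p = p
  act_mul : ∀ σ τ p, act (σ * τ) p = act σ (act τ p)
  X : Set P
  K : Fl
  cK : Countable K
  Gen : Fl → Set P
  Pr : Fl → P → P → Prop
  rat : Submodule ℚ (P →₀ ℚ)
  TZ : Fl → Submodule ℚ (P →₀ ℚ)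
  act_X : ∀ σ ∈ Fix K, ∀ p ∈ X, act σ p ∈ X
  gen_X : ∀ L : Fl, Gen L ⊆ X
  gen_anti : ∀ L L' : Fl, L ≤ L' → Gen L' ⊆ Gen L
  act_gen : ∀ L : Fl, K ≤ L → ∀ σ ∈ Fix L, ∀ p ∈ Gen L, act σ p ∈ Gen L
  pr_gen : ∀ (L : Fl) (p q : P), Pr L p q → p ∈ Gen L ∧ q ∈ Gen L
  rat_act : ∀ σ ∈ Fix K, ∀ z ∈ rat, Finsupp.lmapDomain ℚ ℚ (act σ) z ∈ rat
  move : ∀ L : Fl, Countable L → K ≤ L → ∀ x ∈ X, ∃ z : P →₀ ℚ,
    (∀ p ∈ z.support, p ∈ Gen L) ∧ Finsupp.single x 1 - z ∈ rat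
  tz_X : ∀ L : Fl, ∀ z ∈ TZ L, ∀ q ∈ z.support, q ∈ X
  tz_mono : ∀ L L' : Fl, K ≤ L → L ≤ L' → TZ L ≤ TZ L'
  tz_act : ∀ L : Fl, K ≤ L → ∀ σ ∈ Fix L, ∀ z ∈ TZ L, Finsupp.lmapDomain ℚ ℚ (act σ) z ∈ TZ L
  s1p : ∀ (n : ℕ) (t : Fin n → ℂ), AlgebraicIndependent K t → ∀ α : P → P →₀ ℚ,
    (∀ p ∈ Gen (adj K (Set.range t)), α p ∈ TZ (adj K (Set.range t))) →
    (∀ σ ∈ Fix (adj K (Set.range t)), ∀ p ∈ Gen (adj K (Set.range t)),
      α (act σ p) = Finsupp.lmapDomain ℚ ℚ (act σ) (α p)) →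
    ∀ p q : P, Pr (adj K (Set.range t)) p q → α p - α q ∈ rat
  mu : ∀ L : Fl, Countable L → K ≤ L → ∃ (m : ℕ) (s : Fin m → ℂ) (μ : P → P →₀ ℚ),
    AlgebraicIndependent L s ∧
    (∀ σ ∈ Fix (adj K (Set.range s)), ∀ q ∈ X,
      μ (act σ q) = Finsupp.lmapDomain ℚ ℚ (act σ) (μ q)) ∧
    ∀ p ∈ Gen (adj L (Set.range s)), ∀ q ∈ X,
      {y | ∃ σ ∈ Fix (clo L), act σ p = p ∧ act σ q = y}.Finite →
      (∀ x ∈ (μ q).support, x ∈ Gen K) ∧ Finsupp.single q 1 - μ q ∈ rat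

namespace Sys

variable (S : Sys)

/-- Zero-cycles. -/
abbrev Cy : Type := S.P →₀ ℚ

/-- Zero-cycles modulo rational equivalence. -/
abbrev W : Type := S.Cy ⧸ S.rat

/-- The class of a cycle. -/
noncomputable abbrev cl : S.Cy →ₗ[ℚ] S.W := S.rat.mkQ

/-- The class of a point. -/
noncomputable def pt (p : S.P) : S.W := S.cl (Finsupp.single p 1)

/-- The action of an automorphism on cycles. -/
noncomputable def aC (σ : ℂ ≃+* ℂ) : S.Cy →ₗ[ℚ] S.Cy := Finsupp.lmapDomain ℚ ℚ (S.act σ)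

/-- The linear extension of a map from points to cycles. -/
noncomputable def ex (T : S.P → S.Cy) : S.Cy →ₗ[ℚ] S.Cy := Finsupp.linearCombination ℚ T

/-- The classes of the cycles on the surface. -/
noncomputable def VX : Submodule ℚ S.W := Submodule.span ℚ {v | ∃ p ∈ S.X, v = S.pt p}

/-- The classes which are, over every countable field, combinations of differences of generic
pairs. -/
def VB : Submodule ℚ S.W where
  carrier := {v | ∀ L : Fl, Countable L → S.K ≤ L →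
    v ∈ Submodule.span ℚ {v | ∃ p q, S.Pr L p q ∧ v = S.pt p - S.pt q}}
  add_mem' := fun ha hb L h1 h2 => Submodule.add_mem _ (ha L h1 h2) (hb L h1 h2)
  zero_mem' := fun _ _ _ => Submodule.zero_mem _
  smul_mem' := fun c _ hx L h1 h2 => Submodule.smul_mem _ c (hx L h1 h2)

theorem mem_VB {v : S.W} : v ∈ S.VB ↔ ∀ L : Fl, Countable L → S.K ≤ L →
    v ∈ Submodule.span ℚ {v | ∃ p q, S.Pr L p q ∧ v = S.pt p - S.pt q} := Iff.rfl

/-- `e` is given by a correspondence over `K'` which is zero on two-forms. -/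
def Letter (K' : Fl) (e : Module.End ℚ S.W) : Prop :=
  ∃ α : S.P → S.Cy, (∀ p ∈ S.Gen S.K, α p ∈ S.TZ S.K) ∧
    (∀ σ ∈ Fix K', ∀ p ∈ S.Gen S.K, α (S.act σ p) = S.aC σ (α p)) ∧
    ∀ p ∈ S.Gen S.K, e (S.pt p) = S.cl (α p)

/-- `e` is given by a correspondence over `K'(t)`, `t` independent over `K`, which is zero on
two-forms. -/
def Word (K' : Fl) (e : Module.End ℚ S.W) : Prop :=
  ∃ (n : ℕ) (t : Fin n → ℂ) (α : S.P → S.Cy), AlgebraicIndependent S.K t ∧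
    (∀ p ∈ S.Gen (adj S.K (Set.range t)), α p ∈ S.TZ (adj S.K (Set.range t))) ∧
    (∀ σ ∈ Fix (adj K' (Set.range t)), ∀ p ∈ S.Gen (adj S.K (Set.range t)),
      α (S.act σ p) = S.aC σ (α p)) ∧
    ∀ p ∈ S.Gen (adj S.K (Set.range t)), e (S.pt p) = S.cl (α p)

end Sys

namespace Sys

variable {S : Sys}

theorem aC_single (σ : ℂ ≃+* ℂ) (p : S.P) (c : ℚ) :
    S.aC σ (Finsupp.single p c) = Finsupp.single (S.act σ p) c := by
  unfold aC
  rw [Finsupp.lmapDomain_apply, Finsupp.mapDomain_single]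

theorem aC_one (z : S.Cy) : S.aC 1 z = z := by
  have h : S.aC 1 = LinearMap.id := by
    apply Finsupp.lhom_ext
    intro p c
    rw [aC_single, S.act_one]
    rfl
  rw [h]
  rfl

theorem aC_mul (σ τ : ℂ ≃+* ℂ) (z : S.Cy) : S.aC (σ * τ) z = S.aC σ (S.aC τ z) := by
  have h : S.aC (σ * τ) = (S.aC σ).comp (S.aC τ) := by
    apply Finsupp.lhom_ext
    intro p c
    rw [aC_single, LinearMap.comp_apply, aC_single, aC_single, S.act_mul]
  rw [h]
  rfl

/-- the action on cycles as a linear equivalence -/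
noncomputable def aE (S : Sys) (σ : ℂ ≃+* ℂ) : S.Cy ≃ₗ[ℚ] S.Cy :=
  LinearEquiv.ofLinearMap (S.aC σ) (S.aC σ⁻¹)
    (by
      apply LinearMap.ext
      intro z
      change S.aC σ (S.aC σ⁻¹ z) = z
      rw [← aC_mul, mul_inv_cancel, aC_one])
    (by
      apply LinearMap.ext
      intro z
      change S.aC σ⁻¹ (S.aC σ z) = z
      rw [← aC_mul, inv_mul_cancel, aC_one])

theorem aE_apply (σ : ℂ ≃+* ℂ) (z : S.Cy) : S.aE σ z = S.aC σ z := rfl

theorem aC_rat {σ : ℂ ≃+* ℂ} (hσ : σ ∈ Fix S.K) {z : S.Cy} (hz : z ∈ S.rat) :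
    S.aC σ z ∈ S.rat := S.rat_act σ hσ z hz

theorem aE_rat {σ : ℂ ≃+* ℂ} (hσ : σ ∈ Fix S.K) : S.rat.map (S.aE σ).toLinearMap = S.rat := by
  apply le_antisymm
  · rintro _ ⟨z, hz, rfl⟩
    exact aC_rat hσ hz
  · intro z hz
    refine ⟨S.aC σ⁻¹ z, aC_rat (inv_mem hσ) hz, ?_⟩
    change S.aC σ (S.aC σ⁻¹ z) = z
    rw [← aC_mul, mul_inv_cancel, aC_one]

open Classical in
/-- the action on the classes of cycles -/
noncomputable def aW (S : Sys) (σ : ℂ ≃+* ℂ) : S.W ≃ₗ[ℚ] S.W :=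
  if h : σ ∈ Fix S.K then Submodule.Quotient.equiv S.rat S.rat (S.aE σ) (aE_rat h)
  else LinearEquiv.refl ℚ S.W

theorem aW_cl {σ : ℂ ≃+* ℂ} (hσ : σ ∈ Fix S.K) (z : S.Cy) :
    S.aW σ (S.cl z) = S.cl (S.aC σ z) := by
  unfold aW
  rw [dif_pos hσ]
  rfl

theorem aW_pt {σ : ℂ ≃+* ℂ} (hσ : σ ∈ Fix S.K) (p : S.P) :
    S.aW σ (S.pt p) = S.pt (S.act σ p) := by
  unfold pt
  rw [aW_cl hσ, aC_single]

theorem cl_surj (v : S.W) : ∃ z, S.cl z = v := Submodule.mkQ_surjective S.rat v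

theorem aW_mul {σ τ : ℂ ≃+* ℂ} (hσ : σ ∈ Fix S.K) (hτ : τ ∈ Fix S.K) (v : S.W) :
    S.aW (σ * τ) v = S.aW σ (S.aW τ v) := by
  obtain ⟨z, rfl⟩ := cl_surj v
  rw [aW_cl hτ, aW_cl hσ, aW_cl (mul_mem hσ hτ), aC_mul]

theorem aW_one (v : S.W) : S.aW 1 v = v := by
  obtain ⟨z, rfl⟩ := cl_surj v
  rw [aW_cl (one_mem _), aC_one]

theorem aW_symm {σ : ℂ ≃+* ℂ} (hσ : σ ∈ Fix S.K) (v : S.W) : (S.aW σ).symm v = S.aW σ⁻¹ v := by
  rw [LinearEquiv.symm_apply_eq, ← aW_mul hσ (inv_mem hσ), mul_inv_cancel, aW_one]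

/-- conjugation of endomorphisms -/
noncomputable def cW (S : Sys) (σ : ℂ ≃+* ℂ) : Module.End ℚ S.W ≃ₐ[ℚ] Module.End ℚ S.W :=
  (S.aW σ).conjAlgEquiv ℚ

theorem cW_apply {σ : ℂ ≃+* ℂ} (hσ : σ ∈ Fix S.K) (e : Module.End ℚ S.W) (v : S.W) :
    S.cW σ e v = S.aW σ (e (S.aW σ⁻¹ v)) := by
  rw [← aW_symm hσ]
  rfl

theorem cW_mul {σ τ : ℂ ≃+* ℂ} (hσ : σ ∈ Fix S.K) (hτ : τ ∈ Fix S.K) (e : Module.End ℚ S.W) :
    S.cW (σ * τ) e = S.cW σ (S.cW τ e) := by
  apply LinearMap.ext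
  intro v
  rw [cW_apply (mul_mem hσ hτ), cW_apply hσ, cW_apply hτ, aW_mul hσ hτ, mul_inv_rev,
    aW_mul (inv_mem hτ) (inv_mem hσ)]

theorem cW_one (e : Module.End ℚ S.W) : S.cW 1 e = e := by
  apply LinearMap.ext
  intro v
  rw [cW_apply (one_mem _), inv_one, aW_one, aW_one]

/-! ### classes of cycles -/

theorem cl_eq_sum (z : S.Cy) : S.cl z = z.sum fun p c => c • S.pt p := by
  have h : S.cl = Finsupp.linearCombination ℚ S.pt := by
    apply Finsupp.lhom_ext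
    intro p c
    rw [Finsupp.linearCombination_single, pt, ← map_smul, Finsupp.smul_single, smul_eq_mul,
      mul_one]
  rw [h]
  rfl

theorem cl_mem {N : Submodule ℚ S.W} {z : S.Cy} (h : ∀ p ∈ z.support, S.pt p ∈ N) :
    S.cl z ∈ N := by
  rw [cl_eq_sum]
  exact Submodule.sum_mem _ fun p hp => N.smul_mem _ (h p hp)

theorem cl_mem_VX {z : S.Cy} (h : ∀ p ∈ z.support, p ∈ S.X) : S.cl z ∈ S.VX :=
  cl_mem fun p hp => Submodule.subset_span ⟨p, h p hp, rfl⟩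

theorem pt_mem_VX {p : S.P} (hp : p ∈ S.X) : S.pt p ∈ S.VX := Submodule.subset_span ⟨p, hp, rfl⟩

/-- the classes on the surface are generated by the generic points -/
theorem VX_le {L : Fl} (hc : Countable L) (hL : S.K ≤ L) {N : Submodule ℚ S.W}
    (h : ∀ p ∈ S.Gen L, S.pt p ∈ N) : S.VX ≤ N := by
  refine Submodule.span_le.2 ?_
  rintro _ ⟨p, hp, rfl⟩
  obtain ⟨z, hz, hz'⟩ := S.move L hc hL p hp
  have h1 : S.pt p = S.cl z := by
    unfold pt
    exact (Submodule.Quotient.eq S.rat).2 hz'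
  rw [h1]
  exact cl_mem fun q hq => h q (hz q hq)

theorem aW_VX {σ : ℂ ≃+* ℂ} (hσ : σ ∈ Fix S.K) {v : S.W} (hv : v ∈ S.VX) : S.aW σ v ∈ S.VX := by
  have h : S.VX ≤ S.VX.comap (S.aW σ).toLinearMap := by
    refine Submodule.span_le.2 ?_
    rintro _ ⟨p, hp, rfl⟩
    change S.aW σ (S.pt p) ∈ S.VX
    rw [aW_pt hσ]
    exact pt_mem_VX (S.act_X σ hσ p hp)
  exact h hv

/-! ### linear extensions -/

theorem ex_single (T : S.P → S.Cy) (p : S.P) : S.ex T (Finsupp.single p 1) = T p := by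
  unfold ex
  rw [Finsupp.linearCombination_single, one_smul]

theorem ex_eq_sum (T : S.P → S.Cy) (z : S.Cy) : S.ex T z = z.sum fun p c => c • T p := rfl

theorem ex_mem {T : S.P → S.Cy} {z : S.Cy} {N : Submodule ℚ S.Cy}
    (h : ∀ p ∈ z.support, T p ∈ N) : S.ex T z ∈ N := by
  rw [ex_eq_sum]
  exact Submodule.sum_mem _ fun p hp => N.smul_mem _ (h p hp)

/-- two linear maps which agree on the points of a cycle agree on the cycle -/
theorem lin_congr {M : Type} [AddCommGroup M] [Module ℚ M] {φ ψ : S.Cy →ₗ[ℚ] M} {z : S.Cy}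
    (h : ∀ p ∈ z.support, φ (Finsupp.single p 1) = ψ (Finsupp.single p 1)) : φ z = ψ z := by
  have h1 : ∀ χ : S.Cy →ₗ[ℚ] M, χ z = z.sum fun p c => c • χ (Finsupp.single p 1) := by
    intro χ
    conv_lhs => rw [← Finsupp.sum_single z]
    rw [Finsupp.sum, map_sum, Finsupp.sum]
    refine Finset.sum_congr rfl fun p _ => ?_
    rw [← map_smul, Finsupp.smul_single, smul_eq_mul, mul_one]
  rw [h1 φ, h1 ψ]
  exact Finset.sum_congr rfl fun p hp => congrArg (fun y => z p • y) (h p hp)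

end Sys

end Pool.Agent.VGS.FibSys
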