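import Pool.Agent.FSys.Basic
import Pool.Agent.VGS.Trd

/-! Module SysM: products of correspondences. -/

set_option autoImplicit false

namespace Pool.Agent.VGS.FibSys


namespace Sys

variable {S : Sys}

/-- `e` commutes with the automorphisms over `K'` -/
def Comm (S : Sys) (K' : Fl) (e : Module.End ℚ S.W) : Prop :=
  ∀ σ ∈ Fix K', ∀ v ∈ S.VX, e (S.aW σ v) = S.aW σ (e v)

/-- `e` preserves the classes on the surface -/
def Stab (S : Sys) (e : Module.End ℚ S.W) : Prop :=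
  ∀ v ∈ S.VX, e v ∈ S.VX

theorem Stab.mul {e e' : Module.End ℚ S.W} (h : S.Stab e) (h' : S.Stab e') : S.Stab (e * e') :=
  fun v hv => h _ (h' v hv)

theorem Comm.mul {K' : Fl} {e e' : Module.End ℚ S.W} (h : S.Comm K' e) (h' : S.Comm K' e')
    (hs : S.Stab e') : S.Comm K' (e * e') := by
  intro σ hσ v hv
  change e (e' (S.aW σ v)) = S.aW σ (e (e' v))
  rw [h' σ hσ v hv, h σ hσ _ (hs v hv)]

theorem Letter.comm {K' : Fl} (h1 : S.K ≤ K') {e : Module.End ℚ S.W} (he : S.Letter K' e) :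
    S.Comm K' e := by
  obtain ⟨α, hα, hα', hv⟩ := he
  have := S.cK
  intro σ hσ
  have hσ' : σ ∈ Fix S.K := Fix_mono h1 hσ
  have h : S.VX ≤ LinearMap.eqLocus (e.comp (S.aW σ).toLinearMap)
      ((S.aW σ).toLinearMap.comp e) := by
    refine VX_le (L := S.K) inferInstance le_rfl fun p hp => ?_
    change e (S.aW σ (S.pt p)) = S.aW σ (e (S.pt p))
    rw [aW_pt hσ', hv p hp, hv _ (S.act_gen _ le_rfl σ hσ' p hp), hα' σ hσ p hp, aW_cl hσ']
  exact fun v hv => h hv

theorem Letter.stab {K' : Fl} {e : Module.End ℚ S.W}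
    (he : S.Letter K' e) : S.Stab e := by
  obtain ⟨α, hα, hα', hv⟩ := he
  have := S.cK
  have h : S.VX ≤ S.VX.comap e := by
    refine VX_le (L := S.K) inferInstance le_rfl fun p hp => ?_
    change e (S.pt p) ∈ S.VX
    rw [hv p hp]
    exact cl_mem_VX (S.tz_X _ _ (hα p hp))
  exact fun v hv => h hv

theorem Letter.word {K' : Fl} {e : Module.End ℚ S.W} (he : S.Letter K' e) : S.Word K' e := by
  obtain ⟨α, hα, hα', hv⟩ := he
  have h0 : ∀ L : Fl, adj L (Set.range (Fin.elim0 : Fin 0 → ℂ)) = L := by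
    intro L
    apply le_antisymm _ (le_adj L _)
    refine adj_le le_rfl ?_
    rintro x ⟨i, _⟩
    exact i.elim0
  refine ⟨0, Fin.elim0, α, ?_, ?_, ?_, ?_⟩
  · exact algebraicIndependent_empty_type
  · rw [h0]; exact hα
  · rw [h0, h0]; exact hα'
  · rw [h0]; exact hv

/-- the product of a correspondence over `K'` and one over `K'(t)` -/
theorem Letter.mul_word {K' : Fl} (h1 : S.K ≤ K') (h2 : K' ≤ clo S.K) {e e' : Module.End ℚ S.W}
    (he : S.Letter K' e) (he' : S.Word K' e') : S.Word K' (e * e') := by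
  classical
  obtain ⟨α₁, hα₁, hα₁', hv₁⟩ := he
  obtain ⟨n, t, α₂, ht, hα₂, hα₂', hv₂⟩ := he'
  have := S.cK
  obtain ⟨L, hL⟩ : ∃ L : Fl, L = adj S.K (Set.range t) := ⟨_, rfl⟩
  have hcL : Countable L := by
    rw [hL]
    have : Countable (Set.range t) := (Set.countable_range t).to_subtype
    infer_instance
  have hKL : S.K ≤ L := by rw [hL]; exact le_adj _ _
  obtain ⟨m, s, μ, hs, hμ, hμ'⟩ := S.mu L hcL hKL
  rw [← hL] at hα₂ hα₂' hv₂
  obtain ⟨u, hu⟩ : ∃ u : Fin (n + m) → ℂ, u = Fin.append t s := ⟨_, rfl⟩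
  have hru : Set.range u = Set.range t ∪ Set.range s := by
    rw [hu]
    ext x
    constructor
    · rintro ⟨i, rfl⟩
      refine Fin.addCases (fun i => ?_) (fun i => ?_) i
      · rw [Fin.append_left]; exact Or.inl ⟨i, rfl⟩
      · rw [Fin.append_right]; exact Or.inr ⟨i, rfl⟩
    · rintro (⟨i, rfl⟩ | ⟨i, rfl⟩)
      · exact ⟨Fin.castAdd m i, Fin.append_left t s i⟩
      · exact ⟨Fin.natAdd n i, Fin.append_right t s i⟩
  have hLu : adj S.K (Set.range u) = adj L (Set.range s) := by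
    rw [hru, hL, adj_adj]
  have hLu' : adj K' (Set.range u) = adj (adj K' (Set.range t)) (Set.range s) := by
    rw [hru, adj_adj]
  have hgL : ∀ p ∈ S.Gen (adj L (Set.range s)), p ∈ S.Gen L := fun p hp =>
    S.gen_anti _ _ (le_adj L _) hp
  have hgK : ∀ p ∈ S.Gen (adj L (Set.range s)), p ∈ S.Gen S.K := fun p hp =>
    S.gen_anti _ _ (hKL.trans (le_adj L _)) hp
  have hK'L : adj K' (Set.range t) ≤ clo L := by
    refine adj_le (h2.trans (clo_mono hKL)) ?_
    rintro _ ⟨i, rfl⟩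
    refine le_clo L ?_
    rw [hL]
    exact subset_adj _ _ ⟨i, rfl⟩
  -- the points of `α₂ p`
  have key : ∀ p ∈ S.Gen (adj L (Set.range s)), ∀ q ∈ (α₂ p).support,
      (∀ x ∈ (μ q).support, x ∈ S.Gen S.K) ∧ Finsupp.single q 1 - μ q ∈ S.rat := by
    intro p hp q hq
    refine hμ' p hp q (S.tz_X _ _ (hα₂ p (hgL p hp)) q hq) ?_
    refine Set.Finite.subset (α₂ p).support.finite_toSet ?_
    rintro _ ⟨σ, hσ, hσp, rfl⟩
    have h3 := hα₂' σ (Fix_mono hK'L hσ) p (hgL p hp)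
    rw [hσp] at h3
    rw [h3]
    rw [Finset.mem_coe, Finsupp.mem_support_iff]
    unfold aC
    rw [Finsupp.lmapDomain_apply, Finsupp.mapDomain_apply]
    · exact Finsupp.mem_support_iff.1 hq
    · intro x y hxy
      have := congrArg (S.act σ⁻¹) hxy
      rwa [← S.act_mul, ← S.act_mul, inv_mul_cancel, S.act_one, S.act_one] at this
  have key2 : ∀ p ∈ S.Gen (adj L (Set.range s)), ∀ x ∈ (S.ex μ (α₂ p)).support,
      x ∈ S.Gen S.K := by
    intro p hp
    have h3 : S.ex μ (α₂ p) ∈ Finsupp.supported ℚ ℚ (S.Gen S.K) :=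
      ex_mem fun q hq => (key p hp q hq).1
    exact h3
  refine ⟨n + m, u, fun p => S.ex α₁ (S.ex μ (α₂ p)), ?_, ?_, ?_, ?_⟩
  · rw [hL] at hs
    have h3 := ai_sum.2 ⟨ht, hs⟩
    refine (algebraicIndependent_equiv' (finSumFinEquiv (m := n) (n := m)) (f := u) ?_).1 h3
    funext i
    rcases i with i | i
    · rw [hu, Function.comp_apply, finSumFinEquiv_apply_left, Fin.append_left]
      rfl
    · rw [hu, Function.comp_apply, finSumFinEquiv_apply_right, Fin.append_right]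
      rfl
  · intro p hp
    rw [hLu] at hp ⊢
    refine S.tz_mono S.K _ le_rfl (hKL.trans (le_adj _ _)) ?_
    exact ex_mem fun q hq => hα₁ q (key2 p hp q hq)
  · intro σ hσ p hp
    rw [hLu] at hp
    rw [hLu', mem_Fix_adj] at hσ
    obtain ⟨hσ1, hσ2⟩ := hσ
    have hσ3 : σ ∈ Fix K' := Fix_mono (le_adj _ _) hσ1
    have hσ4 : σ ∈ Fix S.K := Fix_mono h1 hσ3
    have hσ5 : σ ∈ Fix (adj S.K (Set.range s)) := mem_Fix_adj.2 ⟨hσ4, hσ2⟩
    beta_reduce
    rw [hα₂' σ hσ1 p (hgL p hp)]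
    have h3 : S.ex μ (S.aC σ (α₂ p)) = S.aC σ (S.ex μ (α₂ p)) := by
      change ((S.ex μ).comp (S.aC σ)) (α₂ p) = ((S.aC σ).comp (S.ex μ)) (α₂ p)
      refine lin_congr fun q hq => ?_
      rw [LinearMap.comp_apply, LinearMap.comp_apply, aC_single, ex_single, ex_single]
      exact hμ σ hσ5 q (S.tz_X _ _ (hα₂ p (hgL p hp)) q hq)
    rw [h3]
    change ((S.ex α₁).comp (S.aC σ)) (S.ex μ (α₂ p)) = ((S.aC σ).comp (S.ex α₁)) (S.ex μ (α₂ p))
    refine lin_congr fun q hq => ?_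
    rw [LinearMap.comp_apply, LinearMap.comp_apply, aC_single, ex_single, ex_single]
    exact hα₁' σ hσ3 q (key2 p hp q hq)
  · intro p hp
    rw [hLu] at hp
    change e (e' (S.pt p)) = S.cl (S.ex α₁ (S.ex μ (α₂ p)))
    rw [hv₂ p (hgL p hp)]
    have h3 : S.cl (α₂ p) = S.cl (S.ex μ (α₂ p)) := by
      change S.cl (α₂ p) = (S.cl.comp (S.ex μ)) (α₂ p)
      refine lin_congr fun q hq => ?_
      rw [LinearMap.comp_apply, ex_single]
      exact (Submodule.Quotient.eq S.rat).2 (key p hp q hq).2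
    rw [h3]
    change (e.comp S.cl) (S.ex μ (α₂ p)) = (S.cl.comp (S.ex α₁)) (S.ex μ (α₂ p))
    refine lin_congr fun q hq => ?_
    rw [LinearMap.comp_apply, LinearMap.comp_apply, ex_single]
    exact hv₁ q (key2 p hp q hq)

end Sys

end Pool.Agent.VGS.FibSys
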