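import Pool.Agent.FSys.Tr
import Pool.Agent.VGS2.Rep
import Pool.Agent.VGS.BI2

/-! Nilpotence on a subspace. -/

set_option autoImplicit false

namespace Pool.Agent.VGS.FibSys


namespace Sys

variable {S : Sys}

theorem cW_letter {K' : Fl}
    (hn : ∀ σ ∈ Fix S.K, ∀ x, σ x ∈ K' ↔ x ∈ K') {σ : ℂ ≃+* ℂ} (hσ : σ ∈ Fix S.K)
    {e : Module.End ℚ S.W} (he : S.Letter K' e) : S.Letter K' (S.cW σ e) := by
  obtain ⟨α, hα, hα', hv⟩ := he
  have hact : ∀ p ∈ S.Gen S.K, S.act σ⁻¹ p ∈ S.Gen S.K := fun p hp =>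
    S.act_gen S.K le_rfl _ (inv_mem hσ) p hp
  refine ⟨fun p => S.aC σ (α (S.act σ⁻¹ p)), fun p hp => ?_, fun τ hτ p hp => ?_,
    fun p hp => ?_⟩
  · exact S.tz_act S.K le_rfl σ hσ _ (hα _ (hact p hp))
  · have hτ' : σ⁻¹ * τ * σ ∈ Fix K' := by
      intro x hx
      change σ⁻¹ (τ (σ x)) = x
      rw [hτ _ ((hn σ hσ x).2 hx)]
      exact σ.symm_apply_apply x
    have e1 : S.act σ⁻¹ (S.act τ p) = S.act (σ⁻¹ * τ * σ) (S.act σ⁻¹ p) := by
      rw [← S.act_mul, ← S.act_mul]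
      congr 1
      group
    beta_reduce
    rw [e1, hα' _ hτ' _ (hact p hp), ← aC_mul, ← aC_mul]
    congr 2
    group
  · rw [cW_apply hσ, aW_pt (inv_mem hσ), hv _ (hact p hp), aW_cl hσ]

/-- what is proved for all products of letters -/
structure Good (S : Sys) (K' : Fl) (e : Module.End ℚ S.W) : Prop where
  stab : S.Stab e
  comm : S.Comm K' e
  word : S.Word K' e
  mul : ∀ w, S.Word K' w → S.Word K' (e * w)

theorem Letter.good {K' : Fl} (h1 : S.K ≤ K') (h2 : K' ≤ clo S.K) {e : Module.End ℚ S.W}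
    (he : S.Letter K' e) : S.Good K' e :=
  ⟨he.stab, he.comm h1, he.word, fun _ hw => he.mul_word h1 h2 hw⟩

theorem Good.prod {K' : Fl} {e e' : Module.End ℚ S.W} (h : S.Good K' e) (h' : S.Good K' e') :
    S.Good K' (e * e') := by
  refine ⟨h.stab.mul h'.stab, h.comm.mul h'.comm h'.stab, h.mul _ h'.word, fun w hw => ?_⟩
  rw [mul_assoc]
  exact h.mul _ (h'.mul w hw)

/-- the conjugates of the operators `e i` -/
def Cj (S : Sys) {ι : Type} (e : ι → Module.End ℚ S.W) : Set (Module.End ℚ S.W) :=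
  {f | ∃ i, ∃ σ ∈ Fix S.K, f = S.cW σ (e i)}

/-- The ring generated by the conjugates of the operators `e i`. -/
noncomputable def RR (S : Sys) {ι : Type} (e : ι → Module.End ℚ S.W) :
    NonUnitalSubalgebra ℚ (Module.End ℚ S.W) :=
  NonUnitalAlgebra.adjoin ℚ (S.Cj e)

theorem good_closure {K' : Fl} (h1 : S.K ≤ K') (h2 : K' ≤ clo S.K)
    (hn : ∀ σ ∈ Fix S.K, ∀ x, σ x ∈ K' ↔ x ∈ K') {ι : Type} {e : ι → Module.End ℚ S.W}
    (he : ∀ i, S.Letter K' (e i)) {f : Module.End ℚ S.W}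
    (hf : f ∈ Subsemigroup.closure (S.Cj e)) : S.Good K' f := by
  induction hf using Subsemigroup.closure_induction with
  | mem x hx =>
    obtain ⟨i, σ, hσ, rfl⟩ := hx
    exact Letter.good h1 h2 (cW_letter hn hσ (he i))
  | mul x y _ _ hx hy => exact hx.prod hy

/-- linear properties of the elements of the ring -/
theorem RR_induction {ι : Type} {e : ι → Module.End ℚ S.W}
    {N : Submodule ℚ (Module.End ℚ S.W)}
    (h : ∀ f ∈ Subsemigroup.closure (S.Cj e), f ∈ N)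
    {f : Module.End ℚ S.W} (hf : f ∈ S.RR e) : f ∈ N := by
  have h3 : f ∈ (S.RR e).toSubmodule := hf
  unfold RR at h3
  rw [NonUnitalAlgebra.adjoin_eq_span] at h3
  exact (Submodule.span_le (p := N)).2 (fun x hx => h x hx) h3

theorem RR_stab {ι : Type} {e : ι → Module.End ℚ S.W} {U : Submodule ℚ S.W}
    (hs : ∀ i, ∀ σ ∈ Fix S.K, ∀ v ∈ U, S.cW σ (e i) v ∈ U) {f : Module.End ℚ S.W}
    (hf : f ∈ S.RR e) {v : S.W} (hv : v ∈ U) : f v ∈ U := by
  let N : Submodule ℚ (Module.End ℚ S.W) :=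
    { carrier := {e | ∀ v ∈ U, e v ∈ U}
      add_mem' := fun {a b} ha hb v hv => U.add_mem (ha v hv) (hb v hv)
      zero_mem' := fun v _ => U.zero_mem
      smul_mem' := fun c {x} hx v hv => U.smul_mem c (hx v hv) }
  refine RR_induction (N := N) (fun f hf => ?_) hf v hv
  induction hf using Subsemigroup.closure_induction with
  | mem x hx =>
    obtain ⟨i, σ, hσ, rfl⟩ := hx
    exact hs i σ hσ
  | mul x y _ _ hx hy => exact fun v hv => hx _ (hy v hv)

theorem cW_RR {ι : Type} {e : ι → Module.End ℚ S.W} {σ : ℂ ≃+* ℂ} (hσ : σ ∈ Fix S.K)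
    {f : Module.End ℚ S.W} (hf : f ∈ S.RR e) : S.cW σ f ∈ S.RR e := by
  unfold RR at hf
  induction hf using NonUnitalAlgebra.adjoin_induction with
  | mem x hx =>
    obtain ⟨i, τ, hτ, rfl⟩ := hx
    rw [← cW_mul hσ hτ]
    exact NonUnitalAlgebra.subset_adjoin ℚ ⟨i, σ * τ, mul_mem hσ hτ, rfl⟩
  | add x y _ _ hx hy => rw [map_add]; exact add_mem hx hy
  | zero => rw [map_zero]; exact zero_mem _
  | mul x y _ _ hx hy => rw [map_mul]; exact mul_mem hx hy
  | smul c x _ hx => rw [map_smul]; exact SMulMemClass.smul_mem c hx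

theorem nil' {K' : Fl} (h1 : S.K ≤ K') (h2 : K' ≤ clo S.K)
    (hn : ∀ σ ∈ Fix S.K, ∀ x, σ x ∈ K' ↔ x ∈ K')
    (hrep : ∀ (n : ℕ) (t : Fin n → ℂ), AlgebraicIndependent S.K t → ∀ σ ∈ Fix S.K,
      ∃ τ ∈ Fix (adj S.K (Set.range t)), σ⁻¹ * τ ∈ Fix K')
    {l : ℕ} (g : Fin (l + 1) → ℂ ≃+* ℂ)
    (hg : ∀ i, g i ∈ Fix S.K) (hg' : ∀ σ ∈ Fix S.K, ∃! i, (g i)⁻¹ * σ ∈ Fix K')
    {U : Submodule ℚ S.W} (hU : U ≤ S.VB) {ι : Type} {e : ι → Module.End ℚ S.W}
    (he : ∀ i, S.Letter K' (e i)) (hs : ∀ i, ∀ σ ∈ Fix S.K, ∀ v ∈ U, S.cW σ (e i) v ∈ U) :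
    ∃ N : ℕ, 0 < N ∧ ∀ x : Fin N → Module.End ℚ S.W, (∀ i, x i ∈ S.RR e) →
      ∀ v ∈ U, (List.ofFn x).prod v = 0 := by
  let J : Submodule ℚ (Module.End ℚ S.W) :=
    { carrier := {f | f ∈ S.RR e ∧ ∀ v ∈ U, f v = 0}
      add_mem' := fun {a b} ha hb => ⟨add_mem ha.1 hb.1, fun v hv => by
        rw [LinearMap.add_apply, ha.2 v hv, hb.2 v hv, add_zero]⟩
      zero_mem' := ⟨zero_mem _, fun v _ => rfl⟩
      smul_mem' := fun c {x} hx => ⟨SMulMemClass.smul_mem c hx.1, fun v hv => by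
        rw [LinearMap.smul_apply, hx.2 v hv, smul_zero]⟩ }
  have hJ : ∀ f, f ∈ J ↔ f ∈ S.RR e ∧ ∀ v ∈ U, f v = 0 := fun f => Iff.rfl
  obtain ⟨N, hN, h⟩ := nilpotent_of_trace (S.RR e).toSubmodule J
    (fun x hx y hy => mul_mem (S := NonUnitalSubalgebra ℚ (Module.End ℚ S.W)) hx hy)
    (fun x hx => hx.1)
    (fun x hx y hy => ⟨mul_mem (S := NonUnitalSubalgebra ℚ (Module.End ℚ S.W)) hx hy.1,
      fun v hv => by
        change x (y v) = 0
        rw [hy.2 v hv, map_zero]⟩)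
    (fun x hx y hy => ⟨mul_mem (S := NonUnitalSubalgebra ℚ (Module.End ℚ S.W)) hx.1 hy,
      fun v hv => hx.2 _ (RR_stab hs hy hv)⟩)
    (fun i => S.cW (g i))
    (fun i x => ⟨fun hx => by
      have h3 : S.cW (g i)⁻¹ (S.cW (g i) x) ∈ S.RR e := cW_RR (inv_mem (hg i)) hx
      rw [← cW_mul (inv_mem (hg i)) (hg i), inv_mul_cancel, cW_one] at h3
      exact h3, fun hx => cW_RR (hg i) hx⟩)
    (fun x hx => ⟨sum_mem fun i _ => cW_RR (hg i) hx, by
      let N : Submodule ℚ (Module.End ℚ S.W) :=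
        { carrier := {e | ∀ v ∈ U, (∑ i, S.cW (g i) e) v = 0}
          add_mem' := fun {a b} ha hb v hv => by
            rw [Finset.sum_congr rfl fun i _ => map_add (S.cW (g i)) a b, Finset.sum_add_distrib,
              LinearMap.add_apply, ha v hv, hb v hv, add_zero]
          zero_mem' := fun v _ => by
            rw [Finset.sum_congr rfl fun i _ => map_zero (S.cW (g i)), Finset.sum_const_zero]
            rfl
          smul_mem' := fun c {x} hx v hv => by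
            rw [Finset.sum_congr rfl fun i _ => map_smul (S.cW (g i)) c x, ← Finset.smul_sum,
              LinearMap.smul_apply, hx v hv, smul_zero] }
      refine RR_induction (N := N) (fun f hf => ?_) hx
      have h4 := good_closure h1 h2 hn he hf
      exact fun v hv => trace_zero h1 hrep g hg hg' h4.word h4.comm v (hU hv)⟩)
  exact ⟨N, hN, fun x hx => ((hJ _).1 (h x hx)).2⟩

/-- Nilpotence on a subspace `U` of the combinations of differences of linked points: it is enough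
that `U` is stable under the operators and their conjugates. -/
theorem nil_fib (S : Sys) (T : Finset ℂ) (hT : ∀ x ∈ T, x ∈ clo S.K)
    {U : Submodule ℚ S.W} (hU : U ≤ S.VB) {ι : Type} {e : ι → Module.End ℚ S.W}
    (he : ∀ i, S.Letter (adj S.K T) (e i))
    (hs : ∀ i, ∀ σ ∈ Fix S.K, ∀ v ∈ U, S.cW σ (e i) v ∈ U) :
    ∃ N : ℕ, 0 < N ∧ ∀ x : Fin N → ι, ∀ v ∈ U, (List.ofFn fun j => e (x j)).prod v = 0 := by
  have := S.cK
  obtain ⟨K', h1, h2, hTK, hn, l, g, hg, hg'⟩ := exists_normal S.K T hT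
  have he' : ∀ i, S.Letter K' (e i) := by
    intro i
    obtain ⟨α, ha, hb, hc⟩ := he i
    exact ⟨α, ha, fun σ hσ => hb σ (Fix_mono (adj_le h1 hTK) hσ), hc⟩
  obtain ⟨N, hN, h⟩ := nil' h1 h2 hn (fun n t ht σ hσ => exists_rep_fix S.K K' h2 t ht hσ) g hg
    hg' hU he' hs
  refine ⟨N, hN, fun x => h _ fun j => NonUnitalAlgebra.subset_adjoin ℚ ?_⟩
  refine ⟨x j, 1, one_mem _, ?_⟩
  rw [cW_one]

end Sys

end Pool.Agent.VGS.FibSys
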