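import Pool.Agent.FSys.Mul

/-! Module SysT: the trace of a correspondence which is zero on two-forms. -/

set_option autoImplicit false

namespace Pool.Agent.VGS.FibSys


namespace Sys

variable {S : Sys}

/-- conjugation by an automorphism over `K'` does not change the action on the surface -/
theorem cW_fix {K' : Fl} (h1 : S.K ≤ K') {e : Module.End ℚ S.W} (hc : S.Comm K' e)
    {g g' : ℂ ≃+* ℂ} (hg : g ∈ Fix S.K) (hg' : g⁻¹ * g' ∈ Fix K') {v : S.W} (hv : v ∈ S.VX) :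
    S.cW g' e v = S.cW g e v := by
  have h3 : g⁻¹ * g' ∈ Fix S.K := Fix_mono h1 hg'
  have h4 : g' = g * (g⁻¹ * g') := by group
  rw [h4, cW_mul hg h3, cW_apply hg, cW_apply hg, cW_apply h3,
    hc _ (inv_mem hg') _ (aW_VX (inv_mem hg) hv), ← aW_mul h3 (inv_mem h3), mul_inv_cancel, aW_one]

theorem trace_zero {K' : Fl} (h1 : S.K ≤ K')
    (hrep : ∀ (n : ℕ) (t : Fin n → ℂ), AlgebraicIndependent S.K t → ∀ σ ∈ Fix S.K,
      ∃ τ ∈ Fix (adj S.K (Set.range t)), σ⁻¹ * τ ∈ Fix K')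
    {l : ℕ} (g : Fin (l + 1) → ℂ ≃+* ℂ)
    (hg : ∀ i, g i ∈ Fix S.K) (hg' : ∀ σ ∈ Fix S.K, ∃! i, (g i)⁻¹ * σ ∈ Fix K')
    {e : Module.End ℚ S.W} (he : S.Word K' e) (hc : S.Comm K' e) :
    ∀ v ∈ S.VB, (∑ i, S.cW (g i) e) v = 0 := by
  classical
  obtain ⟨n, t, α, ht, hα, hα', hv⟩ := he
  have := S.cK
  choose g' hgL hgg using fun i => hrep n t ht (g i) (hg i)
  have hgK : ∀ i, g' i ∈ Fix S.K := fun i => Fix_mono (le_adj _ _) (hgL i)
  obtain ⟨L, hL⟩ : ∃ L : Fl, L = adj S.K (Set.range t) := ⟨_, rfl⟩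
  have hcL : Countable L := by
    rw [hL]
    have : Countable (Set.range t) := (Set.countable_range t).to_subtype
    infer_instance
  have hKL : S.K ≤ L := by rw [hL]; exact le_adj _ _
  have hs1 := S.s1p n t ht
  have hLt : ∀ σ, σ ∈ Fix L → ∀ x ∈ Set.range t, σ x = x := by
    intro σ hσ x hx
    rw [hL] at hσ
    exact (mem_Fix_adj.1 hσ).2 x hx
  rw [← hL] at hα hα' hv hgL hs1
  have hact : ∀ i, ∀ p ∈ S.Gen L, S.act (g' i)⁻¹ p ∈ S.Gen L := fun i p hp =>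
    S.act_gen L hKL _ (inv_mem (hgL i)) p hp
  obtain ⟨β, hβ⟩ : ∃ β : S.P → S.Cy, β = fun p => ∑ i, S.aC (g' i) (α (S.act (g' i)⁻¹ p)) :=
    ⟨_, rfl⟩
  -- the cosets
  have hco : ∀ i, ∀ σ, (g' i)⁻¹ * σ ∈ Fix K' ↔ (g i)⁻¹ * σ ∈ Fix K' := by
    intro i σ
    have e1 : (g i)⁻¹ * σ = ((g i)⁻¹ * g' i) * ((g' i)⁻¹ * σ) := by group
    rw [e1]
    exact (Subgroup.mul_mem_cancel_left _ (hgg i)).symm
  have hex : ∀ σ ∈ Fix S.K, ∃! i, (g' i)⁻¹ * σ ∈ Fix K' := by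
    intro σ hσ
    obtain ⟨i, hi, hi'⟩ := hg' σ hσ
    exact ⟨i, (hco i σ).2 hi, fun j hj => hi' j ((hco j σ).1 hj)⟩
  -- the two properties of `β`
  have hβ1 : ∀ p ∈ S.Gen L, β p ∈ S.TZ L := by
    intro p hp
    rw [hβ]
    exact Submodule.sum_mem _ fun i _ => S.tz_act L hKL _ (hgL i) _ (hα _ (hact i p hp))
  have hβ2 : ∀ σ ∈ Fix L, ∀ p ∈ S.Gen L, β (S.act σ p) = S.aC σ (β p) := by
    intro σ hσ p hp
    have hσK : σ ∈ Fix S.K := Fix_mono hKL hσ
    choose c hc1 hc2 using fun i => hex (σ⁻¹ * g' i) (mul_mem (inv_mem hσK) (hgK i))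
    beta_reduce at hc1 hc2
    have hinj : Function.Injective c := by
      intro i j hij
      have h3 := hc1 i
      have h4 := hc1 j
      rw [← hij] at h4
      have h5 : (g' i)⁻¹ * g' j ∈ Fix K' := by
        have := mul_mem (inv_mem h3) h4
        convert this using 1
        group
      obtain ⟨l, -, hl⟩ := hex (g' j) (hgK j)
      have h6 := hl i h5
      have h7 := hl j (by beta_reduce; rw [inv_mul_cancel]; exact one_mem _)
      rw [h6, h7]
    have hbij : Function.Bijective c := Finite.injective_iff_bijective.1 hinj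
    have hterm : ∀ i, S.aC (g' i) (α (S.act (g' i)⁻¹ (S.act σ p))) =
        S.aC σ (S.aC (g' (c i)) (α (S.act (g' (c i))⁻¹ p))) := by
      intro i
      have hfix : (g' (c i))⁻¹ * (σ⁻¹ * g' i) ∈ Fix (adj K' (Set.range t)) := by
        rw [mem_Fix_adj]
        refine ⟨hc1 i, fun x hx => ?_⟩
        exact hLt _ (mul_mem (inv_mem (hgL (c i))) (mul_mem (inv_mem hσ) (hgL i))) x hx
      have e1 : S.act (g' i)⁻¹ (S.act σ p) =
          S.act ((g' (c i))⁻¹ * (σ⁻¹ * g' i))⁻¹ (S.act (g' (c i))⁻¹ p) := by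
        rw [← S.act_mul, ← S.act_mul]
        congr 1
        group
      rw [e1, hα' _ (inv_mem hfix) _ (hact (c i) p hp), ← aC_mul, ← aC_mul]
      congr 2
      group
    rw [hβ]
    beta_reduce
    rw [map_sum, ← Equiv.sum_comp (Equiv.ofBijective c hbij)
      fun i => S.aC σ (S.aC (g' i) (α (S.act (g' i)⁻¹ p)))]
    exact Finset.sum_congr rfl fun i _ => hterm i
  have hval : ∀ p ∈ S.Gen L, (∑ i, S.cW (g i) e) (S.pt p) = S.cl (β p) := by
    intro p hp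
    rw [LinearMap.sum_apply, hβ, map_sum]
    refine Finset.sum_congr rfl fun i _ => ?_
    rw [← cW_fix h1 hc (hg i) (hgg i) (pt_mem_VX (S.gen_X L hp)), cW_apply (hgK i),
      aW_pt (inv_mem (hgK i)), hv _ (hact i p hp), aW_cl (hgK i)]
  intro v hv
  have h : Submodule.span ℚ {v | ∃ p q, S.Pr L p q ∧ v = S.pt p - S.pt q} ≤
      LinearMap.ker (∑ i, S.cW (g i) e) := by
    refine Submodule.span_le.2 ?_
    rintro _ ⟨p, q, hpq, rfl⟩
    obtain ⟨hp, hq⟩ := S.pr_gen L p q hpq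
    change (∑ i, S.cW (g i) e) (S.pt p - S.pt q) = 0
    rw [map_sub, hval p hp, hval q hq, ← map_sub]
    exact (Submodule.Quotient.mk_eq_zero S.rat).2 (hs1 β hβ1 hβ2 p q hpq)
  exact h (hv L hcL hKL)

end Sys

end Pool.Agent.VGS.FibSys
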